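import Pool.Agent.P8H98.DF.L.K7

/-!
# Means of weights and non-intersection probabilities at almost all lengths
-/

set_option autoImplicit false
set_option linter.unusedVariables false

namespace Pool.Agent.P8H98.DF.L.K8

open Filter Topology Finset
open Pool.Agent.Y943.SL (Wk)
open Pool.Agent.P8H98.DF.L.K6 Pool.Agent.P8H98.DF.L.K7

lemma bvc {F G : ℕ → ℝ} (hF : Bv F) (h : ∀ᶠ k : ℕ in atTop, F k = G k) : Bv G := by
  obtain ⟨C, hC, h1⟩ := hF
  obtain ⟨N0, hN0⟩ := eventually_atTop.1 h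
  refine ⟨C, hC, ?_⟩
  filter_upwards [h1, eventually_ge_atTop N0] with N g1 g2
  refine le_trans (le_of_eq (sum_congr rfl fun k hk => ?_)) g1
  rw [mem_Ico] at hk
  unfold dd
  rw [hN0 k (by omega), hN0 (k + 1) (by omega), hN0 (k + 2) (by omega)]

variable {c w M : ℕ → ℝ} {μ : ℝ}

lemma tl (s : ℕ) : Tendsto (fun k : ℕ => 2 * k + s) atTop atTop :=
  tendsto_atTop_mono (fun k => by simp only [id]; omega) tendsto_id

lemma log_q (C : Wk c μ) (W : Wk w μ) (n : ℕ) :
    Real.log (w n / c n) = Real.log (w n / μ ^ n) + (-1) * Real.log (c n / μ ^ n) := by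
  have h1 := (pow_pos C.hμ n).ne'
  rw [Real.log_div (W.cpos n).ne' (C.cpos n).ne', Real.log_div (W.cpos n).ne' h1,
    Real.log_div (C.cpos n).ne' h1]
  ring

/-! ### quotients -/

theorem bv_q (C : Wk c μ) (W : Wk w μ) (hM : ∀ᶠ n : ℕ in atTop, M n = w n / c n) {s : ℕ}
    (hs : s ≤ 1) : Bv (fun k => Real.log (M (2 * k + s))) := by
  refine bvc ((bv_wk W hs).add ((bv_wk C hs).smul (-1))) ?_
  filter_upwards [(tl s).eventually hM] with k hk
  rw [hk, log_q C W]

theorem pos_q (C : Wk c μ) (W : Wk w μ) (hM : ∀ᶠ n : ℕ in atTop, M n = w n / c n) :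
    ∀ᶠ n : ℕ in atTop, 0 < M n := by
  filter_upwards [hM] with n hn
  rw [hn]
  exact div_pos (W.cpos n) (C.cpos n)

end Pool.Agent.P8H98.DF.L.K8
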